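import Pool.Agent.H129.VT.Pos
import Pool.Agent.H129.VT.Faith

set_option autoImplicit false

/-!
# Tournaments without given subtournaments

Let the Polish group `Sym(ℕ)` act on the binary relations on `ℕ` by relabelling, and let `T` be a
family of tournaments. The countable-or-perfect dichotomy holds for the invariant Borel sets of
binary relations all of whose infinite prime quotients are `T`-free tournaments if some member of
`T` has at most four vertices; this includes the `T`-free tournaments. If no member of `T` is split,
then the invariant Borel sets of `T`-free tournaments are universal for the logic actions: every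
invariant Borel set of structures in a countable relational language has the same orbits as one of
them. Here a tournament is split if its vertices can be partitioned into two sets on which it is
transitive such that the arcs from the second set to the first one form a matching. In particular
the split tournaments are universal.

Outline. Infinite prime tournaments without one of the tournaments with four vertices are locally
transitive, so the first part follows from the starting result
`MP_5df2c5_lc.PermutationAndIntervalGraphs`. For the second part a pair of linear orders on `ℕ`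
becomes a tournament on `ℕ × {0, 1}`: the copies are ordered by the two orders, and all arcs go from
the first copy to the second one, except for those between the two copies of a number. If the first
order has no last element, then the latter arcs are the only ones which are not in a transitive
triangle as the arc from the first to the last vertex. The pairs of linear orders are faithfully
complete (starting files).
-/

namespace Pool.Agent.Results.MP_5607ba_lc.ForbiddenSubtournaments

/-- Relational structures on `ℕ` with relations of arities `a 0, a 1, ...`. -/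
abbrev Str (a : ℕ → ℕ) : Type := (i : ℕ) → (Fin (a i) → ℕ) → Bool

/-- Isomorphism of structures: they are in the same orbit of the action of `Sym(ℕ)` by
relabelling. -/
def Iso {a : ℕ → ℕ} (x y : Str a) : Prop :=
  ∃ σ : Equiv.Perm ℕ, ∀ (i : ℕ) (v : Fin (a i) → ℕ), y i (⇑σ ∘ v) = x i v

/-- Binary relations on `ℕ`. -/
abbrev Rel : Type := ℕ → ℕ → Bool

/-- Isomorphism of binary relations: they are in the same orbit of the action of `Sym(ℕ)` by
relabelling. -/
def RelIso (x y : Rel) : Prop := ∃ σ : Equiv.Perm ℕ, ∀ m n, y (σ m) (σ n) = x m n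

/-- The countable-or-perfect dichotomy for the members of `K`: every Borel set of members of `K`,
invariant under `E`, has countably many `E`-classes or contains a continuous family, indexed by the
Cantor space, of pairwise inequivalent members. -/
def Dichotomy {X : Type} [TopologicalSpace X] [MeasurableSpace X] (E : X → X → Prop)
    (K : X → Prop) : Prop :=
  ∀ B : Set X, MeasurableSet B → (∀ x y, E x y → (x ∈ B ↔ y ∈ B)) → (∀ x ∈ B, K x) →
    (∃ f : ℕ → X, ∀ x ∈ B, ∃ n, E (f n) x) ∨
    (∃ g : (ℕ → Bool) → X, Continuous g ∧ (∀ c, g c ∈ B) ∧ ∀ c d, E (g c) (g d) → c = d)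

/-- `K` is faithfully complete: for every invariant Borel class `B` of structures (in any countable
relational language) there are an invariant Borel class `B'` of members of `K` and a Borel map `F`
from `B'` to `B` that induces a bijection of the isomorphism types. -/
def FaithfullyComplete {Y : Type} [MeasurableSpace Y] (E : Y → Y → Prop) (K : Y → Prop) : Prop :=
  ∀ (a : ℕ → ℕ) (B : Set (Str a)), MeasurableSet B → (∀ x y, Iso x y → (x ∈ B ↔ y ∈ B)) →
    ∃ (B' : Set Y) (F : Y → Str a), MeasurableSet B' ∧ (∀ y z, E y z → (y ∈ B' ↔ z ∈ B')) ∧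
      (∀ y ∈ B', K y) ∧ Measurable F ∧ (∀ y ∈ B', F y ∈ B) ∧
      (∀ y ∈ B', ∀ z ∈ B', E y z ↔ Iso (F y) (F z)) ∧ ∀ x ∈ B, ∃ y ∈ B', Iso x (F y)

/-- Tournaments: for every two different vertices exactly one of the two arcs is present. -/
structure Tournament {V : Type} (E : V → V → Prop) : Prop where
  irrefl : ∀ a, ¬ E a a
  total : ∀ a b, a ≠ b → E a b ∨ E b a
  asymm : ∀ a b, E a b → ¬ E b a

/-- `y` is a tournament which does not contain a copy of any of the `T i`. -/
def Free {ι : Type} {V : ι → Type} (T : ∀ i, V i → V i → Prop) (y : Rel) : Prop :=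
  Tournament (fun u v => y u v = true) ∧
    ∀ i, ¬ ∃ f : V i → ℕ, Function.Injective f ∧ ∀ u v, y (f u) (f v) = true ↔ T i u v

/-- The vertices can be partitioned into two sets (the vertices with and without the property `I`)
on both of which `T` is transitive, such that the arcs from the second set to the first one have
different starting points and different end points. -/
def Split {V : Type} (T : V → V → Prop) : Prop :=
  ∃ I : V → Prop, (∀ u v w, (I u ↔ I v) → (I v ↔ I w) → T u v → T v w → T u w) ∧
    (∀ u v w, I u → ¬ I v → ¬ I w → T v u → T w u → v = w) ∧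
    ∀ u v w, I u → I v → ¬ I w → T w u → T w v → u = v

/-- No point outside `X` distinguishes the points of `X`. -/
def IsModule (y : Rel) (X : Set ℕ) : Prop :=
  ∀ u, u ∉ X → ∀ v ∈ X, ∀ w ∈ X, y u v = y u w ∧ y v u = y w u

/-- All modules with at least two points are the whole structure. -/
def IsPrime (y : Rel) : Prop := ∀ X : Set ℕ, IsModule y X → X.Subsingleton ∨ X = Set.univ

/-- The quotient with the representatives `e 0, e 1, ...`, without loops. -/
def quotient (y : Rel) (e : ℕ → ℕ) : Rel := fun m n => if m = n then false else y (e m) (e n)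

/-- Every infinite prime quotient of `y` is a `T`-free tournament: if a module of `y` is the
union of disjoint modules `X 0, X 1, ...` with representatives `e 0, e 1, ...` and the quotient is
prime, then the quotient is a `T`-free tournament. There is no restriction on finite quotients nor
on quotients that are not prime. -/
def PrimeQuotientsFree {ι : Type} {V : ι → Type} (T : ∀ i, V i → V i → Prop) (y : Rel) : Prop :=
  ∀ (X : ℕ → Set ℕ) (e : ℕ → ℕ), (∀ n, e n ∈ X n) → (∀ n, IsModule y (X n)) →
    (∀ m n, m ≠ n → Disjoint (X m) (X n)) → IsModule y (⋃ n, X n) → IsPrime (quotient y e) →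
    Free T (quotient y e)

open Pool.Agent.H129.VT
open Pool.Agent.Results.MP_5df2c5_lc

private theorem pv {X : Type} [TopologicalSpace X] [MeasurableSpace X] (E : X → X → Prop)
    (K : X → Prop) : Dichotomy E K ↔ Pool.Agent.W889.VC.VCof True E K := by
  constructor
  · intro h B h1 h2 h3
    rcases h B h1 h2 h3 with ⟨f, hf⟩ | ⟨g, h3, h4, h5⟩
    · exact Or.inl ⟨f, hf⟩
    · exact Or.inr ⟨g, fun _ => h3, h4, h5⟩
  · intro h B h1 h2 h3
    rcases h B h1 h2 h3 with ⟨f, hf⟩ | ⟨g, h3, h4, h5⟩
    · exact Or.inl ⟨f, hf⟩
    · exact Or.inr ⟨g, h3 trivial, h4, h5⟩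

private theorem tour_iff {E : Rel} : Tour E ↔ Tournament (fun u v => E u v = true) := by
  constructor
  · intro h
    exact ⟨fun a k => h.ne k rfl, h.tot, fun a b k1 k2 => h.asy a b k1 k2⟩
  · intro h
    refine ⟨fun a => ?_, h.total, fun a b k1 k2 => h.asymm a b k1 k2⟩
    rw [← Bool.not_eq_true]
    exact h.irrefl a

private theorem ft_of {V : Type} {T : V → V → Prop} (hT : Tournament T) {n : ℕ} (e : V ≃ Fin n)
    [DecidableRel T] : FT (fun i j => decide (T (e.symm i) (e.symm j))) := by
  refine ⟨fun i => decide_eq_false (hT.irrefl _), fun i j hij => ?_⟩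
  have hne : e.symm i ≠ e.symm j := fun k => hij (e.symm.injective k)
  rw [Bool.eq_iff_iff]
  simp only [decide_eq_true_eq, Bool.not_eq_true', decide_eq_false_iff_not]
  exact ⟨fun k => hT.asymm _ _ k, fun k => (hT.total _ _ hne).resolve_left k⟩

private theorem has_iff {V : Type} {T : V → V → Prop} {n : ℕ} (e : V ≃ Fin n)
    [DecidableRel T] {E : Rel}
    (hE : ¬ ∃ f : V → ℕ, Function.Injective f ∧ ∀ u v, E (f u) (f v) = true ↔ T u v) :
    ¬ Has (fun i j => decide (T (e.symm i) (e.symm j))) E := by
  rintro ⟨f, hf, hf'⟩
  refine hE ⟨fun v => f (e v), fun u v huv => e.injective (hf huv), fun u v => ?_⟩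
  rw [hf']
  simp

private theorem split_W {y : Rel} (hy : SM.W y) {V : Type} {T : V → V → Prop} (f : V → ℕ)
    (hf : Function.Injective f) (hT : ∀ u v, y (f u) (f v) = true ↔ T u v) : Split T := by
  have hy' : SM.SM (fun u v => y u v = true) := hy
  have hno : ∀ u, ¬ SM.Lo (fun u v => y u v = true) u → SM.Up (fun u v => y u v = true) u :=
    fun u hu => (hy'.cov u).resolve_left hu
  have hcr : ∀ u v, SM.Lo (fun u v => y u v = true) (f u) →
      ¬ SM.Lo (fun u v => y u v = true) (f v) → T v u →
      SM.MM (fun u v => y u v = true) (f v) (f u) := by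
    intro u v h1 h2 h3
    rcases hy'.cr _ _ h1 (hno _ h2) with h4 | h4
    · exact h4
    · exact absurd ((hT v u).2 h3) (hy'.asy _ _ h4)
  refine ⟨fun u => SM.Lo (fun u v => y u v = true) (f u), fun u v w h1 h2 h3 h4 => ?_,
    fun u v w h1 h2 h3 h4 h5 => ?_, fun u v w h1 h2 h3 h4 h5 => ?_⟩
  · by_cases h5 : SM.Lo (fun u v => y u v = true) (f u)
    · exact (hT _ _).1 (hy'.lo _ _ _ h5 (h1.1 h5) (h2.1 (h1.1 h5)) ((hT _ _).2 h3)
        ((hT _ _).2 h4))
    · have h6 : ¬ SM.Lo (fun u v => y u v = true) (f v) := fun h => h5 (h1.2 h)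
      have h7 : ¬ SM.Lo (fun u v => y u v = true) (f w) := fun h => h6 (h2.2 h)
      exact (hT _ _).1 (hy'.up _ _ _ (hno _ h5) (hno _ h6) (hno _ h7) ((hT _ _).2 h3)
        ((hT _ _).2 h4))
  · exact hf (hy'.inj _ _ _ (hcr _ _ h1 h2 h4) (hcr _ _ h1 h3 h5))
  · exact hf (hy'.fn _ _ _ (hcr _ _ h1 h3 h4) (hcr _ _ h2 h3 h5))

private theorem free_quot {ι : Type} {V : ι → Type} {T : ∀ i, V i → V i → Prop}
    (hT : ∀ i, Tournament (T i)) {y : Rel} (hy : Free T y) : PrimeQuotientsFree T y := by
  intro X e h1 _ h3 _ _
  have hinj : Function.Injective e := by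
    intro a b hab
    by_contra hne
    exact Set.disjoint_left.1 (h3 a b hne) (h1 a) (hab ▸ h1 b)
  have hq : ∀ a b, a ≠ b → quotient y e a b = y (e a) (e b) := fun a b hab => if_neg hab
  have hd : ∀ a, quotient y e a a = false := fun a => if_pos rfl
  refine ⟨⟨fun a k => ?_, fun a b hab => ?_, fun a b k1 k2 => ?_⟩, ?_⟩
  · rw [hd] at k
    exact absurd k (by decide)
  · show quotient y e a b = true ∨ quotient y e b a = true
    rw [hq a b hab, hq b a hab.symm]
    exact hy.1.total _ _ fun k => hab (hinj k)
  · have hab : a ≠ b := by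
      rintro rfl
      rw [hd] at k1
      exact absurd k1 (by decide)
    rw [hq a b hab] at k1
    rw [hq b a hab.symm] at k2
    exact hy.1.asymm _ _ k1 k2
  · rintro i ⟨f, hf, hf'⟩
    refine hy.2 i ⟨fun v => e (f v), fun u v huv => hf (hinj huv), fun u v => ?_⟩
    by_cases huv : u = v
    · subst huv
      exact ⟨fun k => absurd k (hy.1.irrefl _), fun k => absurd k ((hT i).irrefl _)⟩
    · rw [← hf' u v, hq _ _ fun k => huv (hf k)]

private theorem geo {ι : Type} {V : ι → Type} {T : ∀ i, V i → V i → Prop}
    (hT : ∀ i, Tournament (T i)) (h : ∃ i, Finite (V i) ∧ Nat.card (V i) ≤ 4) {y : Rel}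
    (hy : PrimeQuotientsFree T y) : PermutationAndIntervalGraphs.GeometricPrimeQuotients y := by
  classical
  obtain ⟨i, hfin, hn⟩ := h
  obtain ⟨n, ⟨g⟩⟩ := Finite.exists_equiv_fin (V i)
  have hn4 : n ≤ 4 := by
    rw [Nat.card_congr g, Nat.card_eq_fintype_card, Fintype.card_fin] at hn
    exact hn
  intro X e h1 h2 h3 h4 h5
  have hQ := hy X e h1 h2 h3 h4 h5
  have ht : Tour (quotient y e) := tour_iff.2 hQ.1
  have hl := loc_le hn4 (ft_of (hT i) g) ht h5 (has_iff g (hQ.2 i))
  refine Or.inr (Or.inr ⟨ht.irr, fun a b => ?_, fun a b k1 k2 => ht.asy a b k1 k2, hl.out, hl.inn⟩)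
  by_cases hab : a = b
  · exact Or.inl hab
  · exact Or.inr (ht.tot a b hab)

/-- **The dichotomy for tournaments without given subtournaments.** Let `T i` be tournaments
(finitely or infinitely many, finite or infinite).

(1) If some `T i` has at most four vertices, then the countable-or-perfect dichotomy holds for the
orbits of `Sym(ℕ)` in every invariant Borel set of binary relations all of whose infinite prime
quotients are `T`-free tournaments; these relations include the `T`-free tournaments.

(2) If no `T i` is split, then the `T`-free tournaments are faithfully complete, and the dichotomy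
for them is equivalent to the dichotomy for all logic actions of `Sym(ℕ)` (countable relational
languages, all invariant Borel sets). -/
theorem result {ι : Type} {V : ι → Type} (T : ∀ i, V i → V i → Prop)
    (hT : ∀ i, Tournament (T i)) :
    ((∃ i, Finite (V i) ∧ Nat.card (V i) ≤ 4) → Dichotomy RelIso (PrimeQuotientsFree T)) ∧
    (∀ y, Free T y → PrimeQuotientsFree T y) ∧
    ((∀ i, ¬ Split (T i)) → FaithfullyComplete RelIso (Free T) ∧
      (Dichotomy RelIso (Free T) ↔
        ∀ a : ℕ → ℕ, Dichotomy (Iso (a := a)) (fun _ => True))) := by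
  refine ⟨fun h B hB hinv hBK => ?_, fun y hy => free_quot hT hy, fun h => ?_⟩
  · let B' : Set PermutationAndIntervalGraphs.Structures :=
      {x | x.1 ∈ B ∧ ∀ i m, x.2 i m = false}
    have h3 : Pool.Agent.W889.VC.BP
        (fun x : PermutationAndIntervalGraphs.Structures => ∀ i m, x.2 i m = false) := by
      refine Pool.Agent.W889.VC.BP.all fun i => Pool.Agent.W889.VC.BP.all fun m => ?_
      have hc : Measurable fun x : PermutationAndIntervalGraphs.Structures => x.2 i m := by
        fun_prop
      exact hc (measurableSet_singleton false)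
    have hB' : MeasurableSet B' := (measurable_fst hB).inter h3
    have hi : ∀ x ∈ B', ∀ (y : PermutationAndIntervalGraphs.Structures) (σ : Equiv.Perm ℕ),
        PermutationAndIntervalGraphs.IsIso σ x y → y ∈ B' := by
      intro x hx y σ hσ
      refine ⟨(hinv x.1 y.1 ⟨σ, hσ.1⟩).1 hx.1, fun i m => ?_⟩
      have := hσ.2 i (σ.symm m)
      rw [σ.apply_symm_apply] at this
      rw [this]
      exact hx.2 _ _
    rcases PermutationAndIntervalGraphs.result.1 B' hB'
      (fun x hx => geo hT h (hBK _ hx.1)) hi with ⟨f, hf⟩ | ⟨c, c1, c2, c3⟩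
    · left
      refine ⟨fun n => (f n).1, fun y hy => ?_⟩
      obtain ⟨n, σ, hσ⟩ := hf (y, fun _ _ => false) ⟨hy, fun _ _ => rfl⟩
      exact ⟨n, σ, hσ.1⟩
    · right
      refine ⟨fun s => (c s).1, continuous_fst.comp c1, fun s => (c2 s).1, fun s t ⟨σ, hσ⟩ => ?_⟩
      refine c3 s t ⟨σ, hσ, fun i m => ?_⟩
      rw [(c2 t).2, (c2 s).2]
  · have hf : Pool.Agent.W889.VC.Faithful RelIso (Free T) :=
      SM.faithful_W.mono fun y hy => ⟨⟨hy.irr, hy.tot, hy.asy⟩,
        fun i ⟨f, hf, hf'⟩ => h i (split_W hy f hf hf')⟩
    refine ⟨hf, fun k a => ?_, fun k => ?_⟩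
    · rw [pv] at k ⊢
      exact hf.vaught True k a
    · have k2 := k fun _ => 2
      rw [pv] at k2 ⊢
      exact Pool.Agent.W889.VC.down_bin True _ (fun _ => True) (fun _ _ => trivial) k2

end Pool.Agent.Results.MP_5607ba_lc.ForbiddenSubtournaments
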